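import Pool.Agent.Lib.MP_e6fef2_lc.Base

/-!
# Countable ordinals
-/

universe u

namespace Pool.Agent.Lib.MP_e6fef2_lc.H86

open Set

theorem W_countable_Iio (d : W.{u}) : (Iio d).Countable := by
  rw [Cardinal.countable_iff_lt_aleph_one]
  exact Cardinal.mk_Iio_toType_ord_lt d

theorem W_countable_Iic (d : W.{u}) : (Iic d).Countable := by
  have : Iic d = insert d (Iio d) := by
    ext x; simp [le_iff_eq_or_lt]
  rw [this]
  exact (W_countable_Iio d).insert d

theorem W_uncountable : Uncountable W.{u} := by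
  rw [← Cardinal.aleph0_lt_mk_iff, Cardinal.mk_ord_toType, ← Cardinal.succ_aleph0]
  exact Order.lt_succ _

theorem W_exists_gt (d : W.{u}) : ∃ e, d < e := by
  by_contra h
  push Not at h
  have := W_uncountable.{u}
  exact (not_countable (α := W.{u})) (by
    rw [← Set.countable_univ_iff]
    exact (W_countable_Iic d).mono fun x _ => h x)

/-- The successor. -/
theorem W_exists_succ (d : W.{u}) : ∃ e, d < e ∧ ∀ e', d < e' → e ≤ e' := by
  have h : (Ioi d).Nonempty := W_exists_gt d
  exact ⟨wellFounded_lt.min _ h, wellFounded_lt.min_mem _ h, fun e' he =>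
    not_lt.1 (wellFounded_lt.not_lt_min _ he)⟩

noncomputable def sc (d : W.{u}) : W.{u} := (W_exists_succ d).choose
theorem lt_sc (d : W.{u}) : d < sc d := (W_exists_succ d).choose_spec.1
theorem sc_le {d e : W.{u}} (h : d < e) : sc d ≤ e := (W_exists_succ d).choose_spec.2 e h
theorem le_of_lt_sc {d e : W.{u}} (h : e < sc d) : e ≤ d := by
  by_contra hn
  exact absurd (sc_le (not_le.1 hn)) (not_le.2 h)

theorem W_bddAbove {A : Set W.{u}} (hA : A.Countable) : ∃ d, ∀ x ∈ A, x < d := by
  by_contra h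
  push Not at h
  have hU : (⋃ x ∈ A, Iic x) = univ := by
    refine eq_univ_of_forall fun d => ?_
    obtain ⟨x, hx, hd⟩ := h d
    exact mem_iUnion₂.2 ⟨x, hx, hd⟩
  have hc : (univ : Set W.{u}).Countable := by
    rw [← hU]
    exact hA.biUnion fun x _ => W_countable_Iic x
  have := W_uncountable.{u}
  exact not_countable (α := W.{u}) (Set.countable_univ_iff.1 hc)

/-- Least upper bounds of countable sets. -/
theorem W_exists_lub {A : Set W.{u}} (hA : A.Countable) :
    ∃ d, (∀ x ∈ A, x ≤ d) ∧ ∀ e < d, ∃ x ∈ A, e < x := by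
  obtain ⟨d₀, hd₀⟩ := W_bddAbove hA
  have hne : {d : W.{u} | ∀ x ∈ A, x ≤ d}.Nonempty := ⟨d₀, fun x hx => (hd₀ x hx).le⟩
  refine ⟨wellFounded_lt.min _ hne, wellFounded_lt.min_mem _ hne, fun e he => ?_⟩
  by_contra hcon
  push Not at hcon
  exact wellFounded_lt.not_lt_min {d : W.{u} | ∀ x ∈ A, x ≤ d} hcon he


end Pool.Agent.Lib.MP_e6fef2_lc.H86
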