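import Pool.Agent.Lib.MP_e6fef2_lc.H77.Glue
import Pool.Agent.Lib.MP_e6fef2_lc.H86.WFacts

/-!
# Lower bounds of descending sequences of conditions of the generic Kurepa tree
-/

universe u

open Set

namespace Pool.Agent.Lib.MP_e6fef2_lc.H86

variable {I : Type u}

theorem le_seq {s : ℕ → TC I} (hs : ∀ n, s (n + 1) ≤ s n) {m n : ℕ} (h : m ≤ n) : s n ≤ s m := by
  induction h with
  | refl => exact le_rfl
  | step _ ih => exact (hs _).trans ih

/-- The union of the branches with index `x`. -/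
noncomputable def ubr (s : ℕ → TC I) (x : I) : W.{u} → Bool := by
  classical exact fun m => if h : ∃ n, x ∈ (s n).a ∧ m < (s n).ht then (s h.choose).f x m else false

theorem ubr_eq {s : ℕ → TC I} (hs : ∀ n, s (n + 1) ≤ s n) {n : ℕ} {x : I} (hx : x ∈ (s n).a)
    {m : W.{u}} (hm : m < (s n).ht) : ubr s x m = (s n).f x m := by
  have h : ∃ n, x ∈ (s n).a ∧ m < (s n).ht := ⟨n, hx, hm⟩
  rw [ubr, dif_pos h]
  obtain ⟨h1, h2⟩ := h.choose_spec
  rcases le_total h.choose n with hle | hle
  · exact (TC.f_eq (le_seq hs hle) h1 h2).symm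
  · exact TC.f_eq (le_seq hs hle) hx hm

theorem ubr_out {s : ℕ → TC I} {d : W.{u}} (hd : ∀ n, (s n).ht ≤ d) (x : I) {m : W.{u}}
    (hm : d ≤ m) : ubr s x m = false := by
  rw [ubr, dif_neg]
  rintro ⟨n, -, h⟩
  exact absurd (h.trans_le (hd n)) (not_lt.2 hm)

theorem ubr_not {s : ℕ → TC I} {x : I} (hx : ∀ n, x ∉ (s n).a) : ubr s x = fun _ => false := by
  funext m
  rw [ubr, dif_neg]
  rintro ⟨n, h, -⟩
  exact hx n h

/-- The union of the trees. -/
noncomputable def ulev (s : ℕ → TC I) (e : W.{u}) : Set (W.{u} → Bool) := by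
  classical exact if h : ∃ n, e ≤ (s n).ht then (s h.choose).T e else ∅

theorem ulev_eq {s : ℕ → TC I} (hs : ∀ n, s (n + 1) ≤ s n) {n : ℕ} {e : W.{u}}
    (he : e ≤ (s n).ht) : ulev s e = (s n).T e := by
  have h : ∃ n, e ≤ (s n).ht := ⟨n, he⟩
  rw [ulev, dif_pos h]
  rcases le_total h.choose n with hle | hle
  · exact (TC.T_eq (le_seq hs hle) h.choose_spec).symm
  · exact TC.T_eq (le_seq hs hle) he

/-- KLIM: the lower bound with a given top level `R`. -/
theorem klim {s : ℕ → TC I} (hs : ∀ n, s (n + 1) ≤ s n) (d : W.{u}) (hlt : ∀ n, (s n).ht < d)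
    (hlub : ∀ e < d, ∃ n, e < (s n).ht) (R : Set (W.{u} → Bool)) (hRc : R.Countable)
    (hRl : ∀ u ∈ R, ∀ m, d ≤ m → u m = false)
    (hRr : ∀ u ∈ R, ∀ n, cutb (s n).ht u ∈ (s n).T (s n).ht)
    (hRe : ∀ n, ∀ u ∈ (s n).T (s n).ht, ∃ v ∈ R, cutb (s n).ht v = u)
    (hRf : ∀ n, ∀ x ∈ (s n).a, ubr s x ∈ R) :
    ∃ t : TC I, t.ht = d ∧ t.T d = R ∧ t.a = ⋃ n, (s n).a ∧ (∀ x, t.f x = ubr s x) ∧
      ∀ n, t ≤ s n := by
  classical
  let T : W.{u} → Set (W.{u} → Bool) := fun e => if e < d then ulev s e else if e = d then R else ∅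
  have hT1 : ∀ n, ∀ e ≤ (s n).ht, T e = (s n).T e := fun n e he => by
    simp only [T, he.trans_lt (hlt n), if_true]
    exact ulev_eq hs he
  have hT2 : T d = R := by simp only [T, lt_irrefl, if_false, if_true]
  have hcase : ∀ e ≤ d, e = d ∨ ∃ n, e < (s n).ht := fun e he => by
    rcases he.eq_or_lt with h | h
    · exact Or.inl h
    · exact Or.inr (hlub e h)
  let t : TC I :=
    { ht := d
      T := T
      a := ⋃ n, (s n).a
      f := ubr s
      low := by
        intro e he u hu m hm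
        rcases hcase e he with rfl | ⟨n, hn⟩
        · rw [hT2] at hu
          exact hRl u hu m hm
        · rw [hT1 n e hn.le] at hu
          exact (s n).low e hn.le u hu m hm
      ctbl := by
        intro e he
        rcases hcase e he with rfl | ⟨n, hn⟩
        · rw [hT2]; exact hRc
        · rw [hT1 n e hn.le]
          exact (s n).ctbl e hn.le
      res := by
        intro e he e' he' u hu
        rcases hcase e he with rfl | ⟨n, hn⟩
        · rw [hT2] at hu
          rcases hcase e' he' with rfl | ⟨n, hn⟩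
          · rw [hT2, cutb_eq_self (hRl u hu)]
            exact hu
          · rw [hT1 n e' hn.le, ← cutb_cutb hn.le]
            exact (s n).res _ le_rfl _ hn.le _ (hRr u hu n)
        · rw [hT1 n e hn.le] at hu
          rw [hT1 n e' (he'.trans hn.le)]
          exact (s n).res _ hn.le _ he' _ hu
      extn := by
        intro e he e' he' u hu
        rcases hcase e he with rfl | ⟨n, hn⟩
        · rcases hcase e' he' with rfl | ⟨n, hn⟩
          · refine ⟨u, hu, ?_⟩
            rw [hT2] at hu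
            exact cutb_eq_self (hRl u hu)
          · rw [hT1 n e' hn.le] at hu
            obtain ⟨v, hv, hvu⟩ := (s n).extn _ le_rfl _ hn.le _ hu
            obtain ⟨w, hw, hwv⟩ := hRe n v hv
            refine ⟨w, by rwa [hT2], ?_⟩
            rw [← cutb_cutb hn.le, hwv, hvu]
        · rw [hT1 n e' (he'.trans hn.le)] at hu
          rw [hT1 n e hn.le]
          exact (s n).extn _ hn.le _ he' _ hu
      suc := by
        intro e he u hu i
        obtain ⟨n, hn⟩ := hlub e he
        rw [hT1 n e hn.le] at hu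
        rw [hT1 n _ (Order.succ_le_of_lt hn)]
        exact (s n).suc _ hn _ hu i
      ne := by
        obtain ⟨u, hu⟩ := (s 0).ne
        obtain ⟨v, hv, -⟩ := hRe 0 u hu
        exact ⟨v, by rwa [hT2]⟩
      out := by
        intro e he
        simp only [T, not_lt.2 he.le, if_false, he.ne', if_false]
      a_ctbl := countable_iUnion fun n => (s n).a_ctbl
      f_mem := by
        intro x hx
        obtain ⟨n, hn⟩ := mem_iUnion.1 hx
        rw [hT2]
        exact hRf n x hn
      f_out := fun x hx => ubr_not fun n hn => hx (mem_iUnion.2 ⟨n, hn⟩) }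
  refine ⟨t, rfl, hT2, rfl, fun x => rfl, fun n => ?_⟩
  exact ⟨(hlt n).le, fun e he => hT1 n e he, fun x hx => mem_iUnion.2 ⟨n, hx.1⟩,
    fun x hx m hm => ubr_eq hs hx.1 hm⟩

/-- Every node lies on a branch through the union of the trees. -/
theorem exists_branch {s : ℕ → TC I} (hs : ∀ n, s (n + 1) ≤ s n) (d : W.{u})
    (hlt : ∀ n, (s n).ht < d) (n : ℕ) (u : W.{u} → Bool) (hu : u ∈ (s n).T (s n).ht) :
    ∃ v : W.{u} → Bool, cutb (s n).ht v = u ∧ (∀ m, d ≤ m → v m = false) ∧
      ∀ k, cutb (s k).ht v ∈ (s k).T (s k).ht := by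
  classical
  have step : ∀ k : ℕ, ∀ w : {w // w ∈ (s (n + k)).T (s (n + k)).ht},
      ∃ w' : {w // w ∈ (s (n + (k + 1))).T (s (n + (k + 1))).ht},
        cutb (s (n + k)).ht w'.1 = w.1 := by
    intro k w
    have hle : s (n + (k + 1)) ≤ s (n + k) := hs _
    have hw : w.1 ∈ (s (n + (k + 1))).T (s (n + k)).ht := by
      rw [TC.T_eq hle le_rfl]; exact w.2
    obtain ⟨v, hv, hvw⟩ := (s (n + (k + 1))).extn _ le_rfl _ (TC.ht_le hle) _ hw
    exact ⟨⟨v, hv⟩, hvw⟩
  choose g hg using step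
  let w : ∀ k : ℕ, {w // w ∈ (s (n + k)).T (s (n + k)).ht} := fun k =>
    Nat.rec ⟨u, hu⟩ (fun k w => g k w) k
  have hw0 : (w 0).1 = u := rfl
  have hws : ∀ k, cutb (s (n + k)).ht (w (k + 1)).1 = (w k).1 := fun k => hg k (w k)
  have hcoh : ∀ j k, j ≤ k → cutb (s (n + j)).ht (w k).1 = (w j).1 := by
    intro j k h
    induction h with
    | refl => exact cutb_eq_self ((s (n + j)).low _ le_rfl _ (w j).2)
    | @step k hjk ih =>
      have h1 : (s (n + j)).ht ≤ (s (n + k)).ht := TC.ht_le (le_seq hs (Nat.add_le_add_left hjk n))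
      rw [← cutb_cutb h1, hws k, ih]
  let v : W.{u} → Bool := fun m => if h : ∃ k, m < (s (n + k)).ht then (w h.choose).1 m else false
  have hv : ∀ k m, m < (s (n + k)).ht → v m = (w k).1 m := by
    intro k m hm
    have h : ∃ k, m < (s (n + k)).ht := ⟨k, hm⟩
    have hv' : v m = (w h.choose).1 m := dif_pos h
    rw [hv']
    rcases le_total h.choose k with hle | hle
    · rw [← hcoh _ _ hle, cutb_of_lt h.choose_spec]
    · rw [← hcoh _ _ hle, cutb_of_lt hm]
  have hvc : ∀ k, cutb (s (n + k)).ht v = (w k).1 := by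
    intro k
    rw [← cutb_eq_self ((s (n + k)).low _ le_rfl _ (w k).2), cutb_congr]
    intro m hm
    exact hv k m hm
  refine ⟨v, hvc 0, ?_, ?_⟩
  · intro m hm
    have : ¬ ∃ k, m < (s (n + k)).ht := by
      rintro ⟨k, hk⟩
      exact absurd (hk.trans (hlt _)) (not_lt.2 hm)
    exact dif_neg this
  · intro k
    have h1 : s (n + k) ≤ s k := le_seq hs (by omega)
    rw [← cutb_cutb (TC.ht_le h1), hvc k, ← TC.T_eq h1 le_rfl]
    exact (s (n + k)).res _ le_rfl _ (TC.ht_le h1) _ (w k).2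

/-- The forcing is `σ`-closed. -/
theorem sigma_closed (s : ℕ → TC I) (hs : ∀ n, s (n + 1) ≤ s n) : ∃ t, ∀ n, t ≤ s n := by
  classical
  obtain ⟨d, hd1, hd2⟩ := W_exists_lub (A := range fun n => (s n).ht) (countable_range _)
  have hd : ∀ n, (s n).ht ≤ d := fun n => hd1 _ ⟨n, rfl⟩
  by_cases hatt : ∃ n, (s n).ht = d
  · obtain ⟨n, hn⟩ := hatt
    have hn' : ∀ m, n ≤ m → (s m).ht = d := fun m hm =>
      le_antisymm (hd m) (hn ▸ TC.ht_le (le_seq hs hm))
    let F : I → W.{u} → Bool := fun x =>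
      if h : ∃ m, x ∈ (s m).a then (s (max h.choose n)).f x else fun _ => false
    have hF : ∀ m x, x ∈ (s m).a → F x ∈ (s n).T d ∧ ∀ k < (s m).ht, F x k = (s m).f x k := by
      intro m x hx
      have h : ∃ m, x ∈ (s m).a := ⟨m, hx⟩
      have hFx : F x = (s (max h.choose n)).f x := dif_pos h
      have hmem : x ∈ (s (max h.choose n)).a :=
        TC.a_sub (le_seq hs (le_max_left _ _)) h.choose_spec
      have hht : (s (max h.choose n)).ht = d := hn' _ (le_max_right _ _)
      refine ⟨?_, fun k hk => ?_⟩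
      · rw [hFx, ← TC.T_eq (le_seq hs (le_max_right h.choose n)) (by rw [hn])]
        have := (s (max h.choose n)).f_mem x hmem
        rwa [hht] at this
      · rw [hFx]
        rcases le_total m (max h.choose n) with hle | hle
        · exact TC.f_eq (le_seq hs hle) hx hk
        · exact (TC.f_eq (le_seq hs hle) hmem (by rw [hht]; exact hk.trans_le (hd m))).symm
    let t : TC I :=
      { s n with
        a := ⋃ m, (s m).a
        f := F
        a_ctbl := countable_iUnion fun m => (s m).a_ctbl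
        f_mem := by
          intro x hx
          obtain ⟨m, hm⟩ := mem_iUnion.1 hx
          have := (hF m x hm).1
          rwa [← hn] at this
        f_out := by
          intro x hx
          exact dif_neg fun ⟨m, hm⟩ => hx (mem_iUnion.2 ⟨m, hm⟩) }
    refine ⟨t, fun m => ⟨?_, ?_, ?_, ?_⟩⟩
    · change (s m).ht ≤ (s n).ht
      rw [hn]; exact hd m
    · intro e he
      change (s n).T e = (s m).T e
      rcases le_total m n with hle | hle
      · exact TC.T_eq (le_seq hs hle) he
      · exact (TC.T_eq (le_seq hs hle) (by rw [hn]; exact he.trans (hd m))).symm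
    · exact fun x hx => mem_iUnion.2 ⟨m, hx.1⟩
    · exact fun x hx k hk => (hF m x hx.1).2 k hk
  · push Not at hatt
    have hlt : ∀ n, (s n).ht < d := fun n => lt_of_le_of_ne (hd n) (hatt n)
    have hlub : ∀ e < d, ∃ n, e < (s n).ht := by
      intro e he
      obtain ⟨_, ⟨n, rfl⟩, hn⟩ := hd2 e he
      exact ⟨n, hn⟩
    have hbr := fun n (u : {u // u ∈ (s n).T (s n).ht}) => exists_branch hs d hlt n u.1 u.2
    choose br hbr1 hbr2 hbr3 using hbr
    let R : Set (W.{u} → Bool) := (ubr s '' ⋃ n, (s n).a) ∪ ⋃ n, range (br n)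
    have hbc : ∀ n, (range (br n)).Countable := fun n => by
      have : Countable {u // u ∈ (s n).T (s n).ht} := ((s n).ctbl _ le_rfl).to_subtype
      exact countable_range _
    obtain ⟨t, -, -, -, -, ht⟩ := klim hs d hlt hlub R
      (((countable_iUnion fun n => (s n).a_ctbl).image _).union (countable_iUnion hbc))
      (by
        rintro u (⟨x, -, rfl⟩ | hu) m hm
        · exact ubr_out hd x hm
        · obtain ⟨n, u', rfl⟩ := mem_iUnion.1 hu
          exact hbr2 n u' m hm)
      (by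
        rintro u (⟨x, hx, rfl⟩ | hu) n
        · obtain ⟨k, hk⟩ := mem_iUnion.1 hx
          have h1 : s (max k n) ≤ s n := le_seq hs (le_max_right _ _)
          have hxk : x ∈ (s (max k n)).a := TC.a_sub (le_seq hs (le_max_left _ _)) hk
          have h2 : cutb (s n).ht (ubr s x) = cutb (s n).ht ((s (max k n)).f x) := by
            rw [cutb_congr]
            intro m hm
            exact ubr_eq hs hxk (hm.trans_le (TC.ht_le h1))
          rw [h2, ← TC.T_eq h1 le_rfl]
          exact TC.cut_f_mem _ hxk (TC.ht_le h1)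
        · obtain ⟨k, u', rfl⟩ := mem_iUnion.1 hu
          exact hbr3 k u' n)
      (by
        intro n u hu
        exact ⟨br n ⟨u, hu⟩, Or.inr (mem_iUnion.2 ⟨n, ⟨u, hu⟩, rfl⟩), hbr1 n ⟨u, hu⟩⟩)
      (by
        intro n x hx
        exact Or.inl ⟨x, mem_iUnion.2 ⟨n, hx⟩, rfl⟩)
    exact ⟨t, ht⟩

/-- K2: the lower bound whose level `d` consists of the branches, all of which have the value
`false` at `d`. -/
theorem k2 {s : ℕ → TC I} (hs : ∀ n, s (n + 1) ≤ s n) (d : W.{u}) (hlt : ∀ n, (s n).ht < d)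
    (hlub : ∀ e < d, ∃ n, e < (s n).ht)
    (hcov : ∀ n, ∀ u ∈ (s n).T (s n).ht, ∃ k ≥ n, ∃ x ∈ (s k).a, cutb (s n).ht ((s k).f x) = u) :
    ∃ t : TC I, t.ht = Order.succ d ∧ (∀ n, t ≤ s n) ∧ t.a = ⋃ n, (s n).a ∧
      t.T d = {u | ∃ x ∈ t.a, cutb d (t.f x) = u} ∧ ∀ x, t.f x d = false := by
  have hd : ∀ n, (s n).ht ≤ d := fun n => (hlt n).le
  obtain ⟨t, ht1, ht2, ht3, ht4, ht5⟩ := klim hs d hlt hlub (ubr s '' ⋃ n, (s n).a)
    ((countable_iUnion fun n => (s n).a_ctbl).image _)
    (by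
      rintro u ⟨x, -, rfl⟩ m hm
      exact ubr_out hd x hm)
    (by
      rintro u ⟨x, hx, rfl⟩ n
      obtain ⟨k, hk⟩ := mem_iUnion.1 hx
      have h1 : s (max k n) ≤ s n := le_seq hs (le_max_right _ _)
      have hxk : x ∈ (s (max k n)).a := TC.a_sub (le_seq hs (le_max_left _ _)) hk
      have h2 : cutb (s n).ht (ubr s x) = cutb (s n).ht ((s (max k n)).f x) := by
        rw [cutb_congr]
        intro m hm
        exact ubr_eq hs hxk (hm.trans_le (TC.ht_le h1))
      rw [h2, ← TC.T_eq h1 le_rfl]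
      exact TC.cut_f_mem _ hxk (TC.ht_le h1))
    (by
      intro n u hu
      obtain ⟨k, hk, x, hx, hxu⟩ := hcov n u hu
      refine ⟨ubr s x, ⟨x, mem_iUnion.2 ⟨k, hx⟩, rfl⟩, ?_⟩
      rw [← hxu, cutb_congr]
      intro m hm
      exact ubr_eq hs hx (hm.trans_le (TC.ht_le (le_seq hs hk))))
    (by
      intro n x hx
      exact ⟨x, mem_iUnion.2 ⟨n, hx⟩, rfl⟩)
  have hlt' : t.ht < Order.succ d := by rw [ht1]; exact Order.lt_succ d
  have hle := H77.raise_le t (Order.succ d) hlt'
  refine ⟨H77.raise t (Order.succ d) hlt', rfl, fun n => hle.trans (ht5 n), ht3, ?_, ?_⟩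
  · rw [TC.T_eq hle ht1.ge, ht2]
    change _ = {u | ∃ x ∈ t.a, cutb d (t.f x) = u}
    ext u
    constructor
    · rintro ⟨x, hx, rfl⟩
      refine ⟨x, by rwa [ht3], ?_⟩
      rw [ht4]
      exact cutb_eq_self fun m hm => ubr_out hd x hm
    · rintro ⟨x, hx, rfl⟩
      refine ⟨x, by rwa [← ht3], ?_⟩
      rw [ht4]
      exact (cutb_eq_self fun m hm => ubr_out hd x hm).symm
  · intro x
    change t.f x d = false
    rw [ht4]
    exact ubr_out hd x le_rfl

end Pool.Agent.Lib.MP_e6fef2_lc.H86
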