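import Pool.Agent.Lib.MP_e6fef2_lc.Chain
import Pool.Agent.Lib.MP_e6fef2_lc.H15.Club
import Pool.Agent.Lib.MP_e6fef2_lc.H86.KLim

/-!
# Strongly generic conditions of the generic Kurepa tree
-/

universe u

open Set Filter

namespace Pool.Agent.Lib.MP_e6fef2_lc.H86

/-- Generic sequences. -/
theorem gen_seq (S : Type u) [Preorder S] : ∀ᶠ N in club, ∀ s : S, In N s →
    ∃ q : ℕ → S, q 0 = s ∧ (∀ n, q (n + 1) ≤ q n) ∧ (∀ n, In N (q n)) ∧
      ∀ D : Set S, In N D → (∀ p, ∃ r ≤ p, r ∈ D) → ∃ n, q n ∈ D := by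
  classical
  let g : Set S → S → S := fun D p => if h : ∃ r ≤ p, r ∈ D then h.choose else p
  have g1 : ∀ D p, g D p ≤ p := fun D p => by
    by_cases h : ∃ r ≤ p, r ∈ D
    · simp only [g, h, dif_pos]; exact h.choose_spec.1
    · simp only [g, h, dif_neg, not_false_iff]; exact le_rfl
  have g2 : ∀ D p, (∀ p, ∃ r ≤ p, r ∈ D) → g D p ∈ D := fun D p hD => by
    simp only [g, hD p, dif_pos]; exact (hD p).choose_spec.2
  filter_upwards [H15.ev_countable.{u}, H15.ev_fun2 g, H15.ev_const (univ : Set S)]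
    with N h1 h2 h3 s hs
  have hc : {D : Set S | In N D}.Countable := by
    refine Set.Countable.preimage_of_injOn (f := fun D : Set S => (⟨Set S, D⟩ : El.{u})) h1 ?_
    intro a _ b _ hab
    exact eq_of_heq (Sigma.mk.inj hab).2
  obtain ⟨E, hE⟩ := hc.exists_eq_range ⟨univ, h3⟩
  have hEN : ∀ n, In N (E n) := fun n => by
    have : E n ∈ {D : Set S | In N D} := hE ▸ mem_range_self n
    exact this
  let q : ℕ → S := fun n => Nat.rec s (fun n p => g (E n) p) n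
  have hq : ∀ n, In N (q n) := by
    intro n
    induction n with
    | zero => exact hs
    | succ n ih => exact h2 _ _ (hEN n) ih
  refine ⟨q, rfl, fun n => g1 _ _, hq, fun D hD hDd => ?_⟩
  have : D ∈ range E := hE ▸ hD
  obtain ⟨n, rfl⟩ := this
  exact ⟨n + 1, g2 _ _ hDd⟩

theorem tree_sgc : ∀ I : Type u, SGC (TC I) := by
  intro I
  filter_upwards [gen_seq (TC I)] with N hN s hs
  obtain ⟨q, hq0, hq1, hq2, hq3⟩ := hN s hs
  obtain ⟨t, ht⟩ := sigma_closed q hq1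
  refine ⟨t, hq0 ▸ ht 0, fun D hD hDd => ?_⟩
  obtain ⟨n, hn⟩ := hq3 D hD hDd
  exact ⟨q n, hn, hq2 n, ht n⟩

/-- K2N: the generic condition whose level `N ∩ ω₁` consists of the branches with index in `N`,
all of which have the value `false` there. -/
theorem k2n (I : Type u) [Uncountable I] : ∀ᶠ N in club, ∀ s : TC I, In N s →
    ∃ t ≤ s, SG N t ∧ ∃ d : W.{u}, (∀ ξ : W.{u}, In N ξ ↔ ξ < d) ∧ t.ht = Order.succ d ∧
      t.a = {x | In N x} ∧ t.T d = {u | ∃ x ∈ t.a, cutb d (t.f x) = u} ∧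
      ∀ x, t.f x d = false := by
  classical
  let D1 : W.{u} → Set (TC I) := fun e => {s | e < s.ht}
  let D2 : I → Set (TC I) := fun x => {s | x ∈ s.a}
  let D3 : W.{u} → (W.{u} → Bool) → Set (TC I) := fun e u =>
    {s | e ≤ s.ht ∧ (u ∈ s.T e → ∃ x ∈ s.a, cutb e (s.f x) = u)}
  have hD1 : ∀ e, ∀ p, ∃ r ≤ p, r ∈ D1 e := fun e p => by
    obtain ⟨r, hr, he, -⟩ := H77.kext p (Order.succ e)
    exact ⟨r, hr, (Order.lt_succ e).trans_le he⟩
  have hD2 : ∀ x, ∀ p, ∃ r ≤ p, r ∈ D2 x := fun x p => by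
    by_cases hx : x ∈ p.a
    · exact ⟨p, le_rfl, hx⟩
    · obtain ⟨u, hu⟩ := p.ne
      obtain ⟨r, hr, -, -, hra, -⟩ := H77.kadd p x hx u hu
      exact ⟨r, hr, by change x ∈ r.a; rw [hra]; exact mem_insert _ _⟩
  have hD3 : ∀ e u, ∀ p, ∃ r ≤ p, r ∈ D3 e u := fun e u p => by
    obtain ⟨r, hr, he, -⟩ := H77.kext p e
    by_cases hu : u ∈ r.T e
    · obtain ⟨v, hv, hvu⟩ := r.extn _ le_rfl _ he _ hu
      obtain ⟨x, hx⟩ : ∃ x, x ∉ r.a := by
        by_contra hcon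
        push Not at hcon
        exact not_countable (α := I) (countable_univ_iff.1
          (r.a_ctbl.mono fun x _ => hcon x))
      obtain ⟨t, ht, htht, htT, hta, htf⟩ := H77.kadd r x hx v hv
      refine ⟨t, ht.trans hr, ?_, fun _ => ⟨x, ?_, ?_⟩⟩
      · rw [htht]; exact he
      · rw [hta]; exact mem_insert _ _
      · rw [htf]; exact hvu
    · exact ⟨r, hr, he, fun h => absurd h hu⟩
  filter_upwards [gen_seq (TC I), H15.ev_w.{u}, H15.ev_fun D1, H15.ev_fun D2, H15.ev_fun2 D3,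
    H15.ev_fun (fun s : TC I => s.ht), H15.ev_fun (fun s : TC I => s.a),
    H15.ev_fun (fun s : TC I => s.T s.ht), H15.ev_sets I, H15.ev_sets (W.{u} → Bool)]
    with N h1 h2 h3 h4 h5 h6 h7 h8 h9 h10 s hs
  obtain ⟨q, hq0, hq1, hq2, hq3⟩ := h1 s hs
  obtain ⟨d, hd⟩ := h2
  have hlt : ∀ n, (q n).ht < d := fun n => (hd _).1 (h6 _ (hq2 n))
  have hlub : ∀ e < d, ∃ n, e < (q n).ht := fun e he =>
    hq3 (D1 e) (h3 e ((hd e).2 he)) (hD1 e)
  have hcov : ∀ n, ∀ u ∈ (q n).T (q n).ht, ∃ k ≥ n, ∃ x ∈ (q k).a,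
      cutb (q n).ht ((q k).f x) = u := by
    intro n u hu
    have huN : In N u := h10 _ (h8 _ (hq2 n)) ((q n).ctbl _ le_rfl) u hu
    obtain ⟨m, hm1, hm2⟩ := hq3 (D3 (q n).ht u) (h5 _ _ (h6 _ (hq2 n)) huN) (hD3 _ _)
    have hum : u ∈ (q m).T (q n).ht := by
      rcases le_total m n with hle | hle
      · rwa [← TC.T_eq (le_seq hq1 hle) hm1]
      · rwa [TC.T_eq (le_seq hq1 hle) le_rfl]
    obtain ⟨x, hx, hxu⟩ := hm2 hum
    refine ⟨max n m, le_max_left _ _, x, TC.a_sub (le_seq hq1 (le_max_right _ _)) hx, ?_⟩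
    rw [← hxu, cutb_congr]
    intro k hk
    exact TC.f_eq (le_seq hq1 (le_max_right _ _)) hx (hk.trans_le hm1)
  obtain ⟨t, ht1, ht2, ht3, ht4, ht5⟩ := k2 hq1 d hlt hlub hcov
  refine ⟨t, hq0 ▸ ht2 0, fun D hD hDd => ?_, d, hd, ht1, ?_, ht4, ht5⟩
  · obtain ⟨n, hn⟩ := hq3 D hD hDd
    exact ⟨q n, hn, hq2 n, ht2 n⟩
  · rw [ht3]
    ext x
    constructor
    · intro hx
      obtain ⟨n, hn⟩ := mem_iUnion.1 hx
      exact h9 _ (h7 _ (hq2 n)) (q n).a_ctbl x hn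
    · intro hx
      obtain ⟨n, hn⟩ := hq3 (D2 x) (h4 x hx) (hD2 x)
      exact mem_iUnion.2 ⟨n, hn⟩

end Pool.Agent.Lib.MP_e6fef2_lc.H86
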